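import Mathlib
import Pool.Agent.Helper131.Slab.Final2

set_option autoImplicit false

open MeasureTheory

namespace Pool.Agent.Results.MP_66ebcc_gt.FirstTransition

/-- `V(a,t)`: the Lebesgue measure of the slab of the cube `[-1,1]^n` of half-width `t`
in direction `a`. -/
noncomputable def V {n : ℕ} (a : Fin n → ℝ) (t : ℝ) : ENNReal :=
  volume {x : Fin n → ℝ | (∀ i, |x i| ≤ 1) ∧ |∑ i, x i * a i| ≤ t}

/-- the vector `f_m = (1,...,1,0,...,0)/√m` of `ℝ^n` (with `m` ones) -/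
noncomputable def f (n m : ℕ) : Fin n → ℝ :=
  fun i => if (i : ℕ) < m then 1 / Real.sqrt (m : ℝ) else 0

theorem f_unit (n m : ℕ) (hm : 1 ≤ m) (hmn : m ≤ n) : ∑ i, f n m i ^ 2 = 1 := by
  obtain ⟨k, rfl⟩ : ∃ k, n = m + k := ⟨n - m, by omega⟩
  have hm0 : (0 : ℝ) < m := by exact_mod_cast hm
  rw [Fin.sum_univ_add]
  have e1 : ∀ i : Fin m, f (m + k) m (Fin.castAdd k i) ^ 2 = 1 / m := by
    intro i
    unfold f
    rw [if_pos (by simp), div_pow, Real.sq_sqrt hm0.le, one_pow]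
  have e2 : ∀ i : Fin k, f (m + k) m (Fin.natAdd m i) ^ 2 = 0 := by
    intro i
    unfold f
    rw [if_neg (by simp)]
    norm_num
  rw [Finset.sum_congr rfl (fun i _ => e1 i), Finset.sum_congr rfl (fun i _ => e2 i)]
  simp
  field_simp

theorem V_two (n : ℕ) (hn : 2 ≤ n) (t : ℝ) (ht0 : 0 ≤ t) (ht1 : t ≤ Real.sqrt 2) :
    V (f n 2) t = ENNReal.ofReal (2 ^ n * Pool.Agent.Helper131.Slab.gg t) := by
  obtain ⟨m, rfl⟩ : ∃ m, n = m + 2 := ⟨n - 2, by omega⟩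
  have h := Pool.Agent.Helper131.Slab.V_f2 m t ht0 ht1
  unfold V f
  exact_mod_cast h

theorem V_three (n : ℕ) (hn : 3 ≤ n) (t : ℝ) (ht0 : 1 ≤ t) (ht1 : t ≤ Real.sqrt 3) :
    V (f n 3) t = ENNReal.ofReal (2 ^ n * Pool.Agent.Helper131.Slab.gg3 t) := by
  obtain ⟨m, rfl⟩ : ∃ m, n = m + 3 := ⟨n - 3, by omega⟩
  have h := Pool.Agent.Helper131.Slab.V_f3 m t ht0 ht1
  unfold V f
  exact_mod_cast h

open Pool.Agent.Helper131.Slab in
/-- There is a number `t₁` (about `1.01292`, the point where `V(f_2,t) = V(f_3,t)`) such that for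
every dimension `n ≥ 3`: for `2√2 - 2 ≤ t ≤ t₁` the minimum of the slab volume over the unit sphere
is `V(f_2,t)`; for `t₁ ≤ t ≤ 1.015` it is `V(f_3,t)`; and for `t₁ < t ≤ 1.015` the direction `f_2`
is no longer minimal. -/
theorem result : ∃ t₁ : ℝ, 1.0129 < t₁ ∧ t₁ < 1.0130 ∧
    (Real.sqrt 2 - t₁) ^ 2 / 2 = Real.sqrt 3 / 8 * (Real.sqrt 3 - t₁) ^ 3 ∧
    ∀ n : ℕ, 3 ≤ n →
      (∀ t : ℝ, 2 * Real.sqrt 2 - 2 ≤ t → t ≤ t₁ →
        IsLeast ((fun a => V a t) '' {a : Fin n → ℝ | ∑ i, a i ^ 2 = 1}) (V (f n 2) t)) ∧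
      (∀ t : ℝ, t₁ ≤ t → t ≤ 1.015 →
        IsLeast ((fun a => V a t) '' {a : Fin n → ℝ | ∑ i, a i ^ 2 = 1}) (V (f n 3) t)) ∧
      (∀ t : ℝ, t₁ < t → t ≤ 1.015 → V (f n 3) t < V (f n 2) t) := by
  obtain ⟨t1, h1, h2, h3, h4, h5, h6, h7⟩ := crossing
  have hs2 := sqrt2_bounds
  have hs3 := sqrt3_bounds
  have hsq2 : Real.sqrt 2 ^ 2 = 2 := Real.sq_sqrt (by norm_num)
  norm_num at h1 h2 hs2 hs3
  refine ⟨t1, by norm_num; exact h1, by norm_num; exact h2, ?_, ?_⟩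
  · unfold gg gg3 at h3
    nlinarith [h3, hsq2]
  intro n hn
  refine ⟨?_, ?_, ?_⟩
  · intro t ht0 ht1
    refine ⟨⟨f n 2, f_unit n 2 (by norm_num) (by omega), rfl⟩, ?_⟩
    rintro v ⟨a, ha, rfl⟩
    show V (f n 2) t ≤ V a t
    rw [V_two n (by omega) t (by linarith) (by linarith)]
    rcases le_or_gt t 1 with h | h
    · exact vol_ge_large (by omega) a ha t ht0 h
    · have h8 := vol_ge_next (by omega) a ha t h (by norm_num; linarith)
      rwa [min_eq_left (h4 t h.le ht1)] at h8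
  · intro t ht0 ht1
    have ht1' : t ≤ 203 / 200 := by norm_num at ht1; exact ht1
    refine ⟨⟨f n 3, f_unit n 3 (by norm_num) hn, rfl⟩, ?_⟩
    rintro v ⟨a, ha, rfl⟩
    show V (f n 3) t ≤ V a t
    rw [V_three n hn t (by linarith) (by linarith)]
    have h8 := vol_ge_next (by omega) a ha t (by linarith) ht1
    rwa [min_eq_right (h5 t ht0 ht1)] at h8
  · intro t ht0 ht1
    have ht1' : t ≤ 203 / 200 := by norm_num at ht1; exact ht1
    rw [V_three n hn t (by linarith) (by linarith), V_two n (by omega) t (by linarith) (by linarith)]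
    have h8 := h6 t ht0 ht1
    have hgg : 0 < gg t := by
      unfold gg
      nlinarith
    apply (ENNReal.ofReal_lt_ofReal_iff (by positivity)).2
    exact mul_lt_mul_of_pos_left h8 (by positivity)

end Pool.Agent.Results.MP_66ebcc_gt.FirstTransition
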